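import Mathlib

/-!
# `Λ`-trees, free actions, and free `ℚ`-groups: the definitions
-/

set_option autoImplicit false

namespace Pool.Agent.V8H66.LT

universe u v w

section tree

variable {Lam : Type u} [AddCommGroup Lam] [LinearOrder Lam] [IsOrderedAddMonoid Lam] {T : Type v}

/-- `S` is a segment with end points `x` and `y`: the image of a closed interval `[a, b]` of the
ordered group under an isometric embedding `α` with `α a = x` and `α b = y`. -/
def IsSegment (d : T → T → Lam) (x y : T) (S : Set T) : Prop :=
  ∃ (a b : Lam) (α : Lam → T), a ≤ b ∧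
    (∀ s ∈ Set.Icc a b, ∀ t ∈ Set.Icc a b, d (α s) (α t) = |s - t|) ∧
    α a = x ∧ α b = y ∧ S = α '' Set.Icc a b

/-- `(T, d)` is a (nonempty) `Λ`-tree: a `Λ`-metric space in which any two points are joined by a
segment, the intersection of two segments with a common end point is a segment, and the union of
two segments which meet only in a common end point is a segment. -/
structure IsLambdaTree (d : T → T → Lam) : Prop where
  nonempty : Nonempty T
  eq_iff : ∀ x y, d x y = 0 ↔ x = y
  symm : ∀ x y, d x y = d y x
  triangle : ∀ x y z, d x z ≤ d x y + d y z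
  joined : ∀ x y, ∃ S, IsSegment d x y S
  inter : ∀ (x y z : T) (S S' : Set T), IsSegment d x y S → IsSegment d x z S' →
    ∃ u w, IsSegment d u w (S ∩ S')
  union : ∀ (x y z : T) (S S' : Set T), IsSegment d x y S → IsSegment d y z S' →
    S ∩ S' = {y} → ∃ u w, IsSegment d u w (S ∪ S')

/-- The group `G` acts freely on the `Λ`-metric space `(T, d)`: it acts by isometries, and no
nontrivial element fixes a point or inverts a segment (maps a segment onto itself and exchanges
its end points). -/
structure ActsFreely (d : T → T → Lam) (G : Type w) [Group G] [MulAction G T] : Prop where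
  isometry : ∀ (g : G) (x y : T), d (g • x) (g • y) = d x y
  no_fixed : ∀ g : G, g ≠ 1 → ∀ x : T, g • x ≠ x
  no_inversion : ∀ g : G, g ≠ 1 → ∀ (x y : T) (S : Set T), IsSegment d x y S →
    ¬ ((fun t => g • t) '' S = S ∧ g • x = y ∧ g • y = x)

end tree

/-- `G` is a `ℚ`-group: every element has exactly one `n`-th root, for every `n ≥ 1`. -/
def IsQGroup (G : Type u) [Group G] : Prop := ∀ (g : G) (n : ℕ), 1 ≤ n → ∃! x : G, x ^ n = g

/-- The group `F` with the map `ι : X → F` is the free `ℚ`-group on `X`: it is a `ℚ`-group, and every
map from `X` to a `ℚ`-group `H` extends uniquely to a homomorphism from `F` to `H`. -/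
def IsFreeQGroup {X F : Type u} [Group F] (ι : X → F) : Prop :=
  IsQGroup F ∧ ∀ (H : Type u) [Group H], IsQGroup H → ∀ f : X → H, ∃! φ : F →* H, ∀ x, φ (ι x) = f x

end Pool.Agent.V8H66.LT
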