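import Mathlib

/-!
# Free actions on `Λ`-trees: the four point condition and axes

`Lam` is a totally ordered abelian group.  `Hyp d` is the four point condition together with the
existence of medians.  A group in which every element is a square and which acts by isometries
without fixed points and inversions is abelian.
-/

set_option autoImplicit false
set_option linter.unusedSectionVars false
set_option linter.unusedVariables false

namespace Pool.Agent.V8H66.LT

universe u v w

variable {Lam : Type u} [AddCommGroup Lam] [LinearOrder Lam] [IsOrderedAddMonoid Lam] {T : Type v}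

/-- The four point condition and the existence of medians. -/
structure Hyp (d : T → T → Lam) : Prop where
  eq_iff : ∀ x y, d x y = 0 ↔ x = y
  symm : ∀ x y, d x y = d y x
  four : ∀ o x y z, d x z + d o y ≤ d x y + d o z ∨ d x z + d o y ≤ d y z + d o x
  median : ∀ x y z, ∃ m, d x m + d m y = d x y ∧ d x m + d m z = d x z ∧ d y m + d m z = d y z

/-- `y` is between `x` and `z`. -/
def Btw (d : T → T → Lam) (x y z : T) : Prop := d x y + d y z = d x z

section metric

variable {d : T → T → Lam} (H : Hyp d)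

include H

theorem Hyp.self (x : T) : d x x = 0 := (H.eq_iff x x).2 rfl

theorem Hyp.nonneg (x y : T) : 0 ≤ d x y := by
  have h1 := H.four x x x y
  have h2 := H.self x
  have h3 := H.four x y x y
  have h4 := H.self y
  have h5 := H.symm x y
  grind

theorem Hyp.tri (x y z : T) : d x z ≤ d x y + d y z := by
  have h1 := H.four y x y z
  have h2 := H.self y
  have h3 := H.symm x y
  have h4 := H.symm z y
  grind

theorem Hyp.pos {x y : T} (h : x ≠ y) : 0 < d x y :=
  lt_of_le_of_ne (H.nonneg x y) (fun h0 => h ((H.eq_iff x y).1 h0.symm))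

theorem Hyp.btw_symm {x y z : T} (h : Btw d x y z) : Btw d z y x := by
  unfold Btw at *
  rw [H.symm z y, H.symm y x, H.symm z x, add_comm]
  exact h

/-- local geodesics are geodesics -/
theorem Hyp.chain {a b c e : T} (h1 : Btw d a b c) (hbc : b ≠ c) (h2 : Btw d b c e) :
    Btw d a c e := by
  unfold Btw at *
  have h3 := H.four b a e c
  have h4 := H.pos hbc
  have h5 := H.tri a c e
  have h6 := H.symm b a
  have h7 := H.symm e c
  grind

theorem Hyp.branch {x p y : T} (h : Btw d x p y) (u : T) : Btw d u p x ∨ Btw d u p y := by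
  unfold Btw at *
  have h1 := H.four p x u y
  have h2 := H.tri u p x
  have h3 := H.tri u p y
  have h4 := H.symm x p
  have h5 := H.symm u p
  have h6 := H.symm x u
  grind

theorem Hyp.uniq {x y p q : T} (hp : Btw d x p y) (hq : Btw d x q y) (h : d x p = d x q) :
    p = q := by
  unfold Btw at *
  have h1 := H.four x p y q
  have h2 := H.nonneg p q
  have h3 := H.symm p x
  have h4 := H.symm q x
  have h5 := H.symm q y
  have h6 := H.four x p q y
  have h7 := H.symm y q
  apply (H.eq_iff p q).1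
  grind

theorem Hyp.two_btw {x y p q : T} (hp : Btw d x p y) (hq : Btw d x q y) (h : d x p ≤ d x q) :
    d p q = d x q - d x p := by
  unfold Btw at *
  have h1 := H.four x p y q
  have h2 := H.tri x p q
  have h7 := H.symm q y
  grind

end metric

section action

variable {d : T → T → Lam} (H : Hyp d) {G : Type w} [Group G] [MulAction G T]
  (iso : ∀ (g : G) (x y : T), d (g • x) (g • y) = d x y)
  (free : ∀ g : G, g ≠ 1 → ∀ x y : T, ¬ (g • x = y ∧ g • y = x))

/-- `x` lies on the axis of `g`. -/
def OnAxis (d : T → T → Lam) {G : Type w} [Group G] [MulAction G T] (g : G) (x : T) : Prop :=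
  Btw d (g⁻¹ • x) x (g • x)

include H iso

theorem dist_inv (g : G) (x y : T) : d (g⁻¹ • x) y = d x (g • y) := by
  rw [← iso g (g⁻¹ • x) y, smul_inv_smul]

theorem dist_inv_self (g : G) (x : T) : d x (g⁻¹ • x) = d x (g • x) := by
  rw [H.symm x, dist_inv H iso]

theorem OnAxis.inv {g : G} {x : T} (h : OnAxis d g x) : OnAxis d g⁻¹ x := by
  unfold OnAxis at *
  rw [inv_inv]
  exact H.btw_symm h

theorem onAxis_conj {g k : G} {x : T} : OnAxis d (k * g * k⁻¹) x ↔ OnAxis d g (k⁻¹ • x) := by
  unfold OnAxis Btw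
  have e1 : (k * g * k⁻¹)⁻¹ • x = k • g⁻¹ • k⁻¹ • x := by
    simp only [smul_smul]; congr 1; group
  have e2 : (k * g * k⁻¹) • x = k • g • k⁻¹ • x := by
    simp only [smul_smul, mul_assoc]
  have e3 : x = k • k⁻¹ • x := by rw [smul_inv_smul]
  rw [e1, e2]
  have h1 : d (k • g⁻¹ • k⁻¹ • x) x = d (g⁻¹ • k⁻¹ • x) (k⁻¹ • x) := by
    conv_lhs => rw [e3]
    rw [inv_smul_smul, iso]
  have h2 : d x (k • g • k⁻¹ • x) = d (k⁻¹ • x) (g • k⁻¹ • x) := by
    conv_lhs => rw [e3]
    rw [inv_smul_smul, iso]
  rw [h1, h2, iso]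

include free

/-- every nontrivial element has an axis, and the projection to the axis -/
theorem exists_proj {g : G} (hg : g ≠ 1) (x : T) : ∃ m : T, OnAxis d g m ∧
    Btw d x m (g • m) ∧ Btw d x m (g⁻¹ • m) ∧ d x (g • x) = d x m + d m (g • m) + d x m ∧
    d x m + d m (g • x) = d x (g • x) := by
  obtain ⟨m, h1, h2, h3⟩ := H.median x (g • x) (g⁻¹ • x)
  have hL : d x (g⁻¹ • x) = d x (g • x) := dist_inv_self H iso g x
  -- images
  have a1 : d (g • x) (g • m) = d x m := iso g x m
  have a2 : d (g • m) x = d m (g⁻¹ • x) := by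
    rw [← iso g m (g⁻¹ • x), smul_inv_smul]
  have a3 : d m (g⁻¹ • m) = d m (g • m) := dist_inv_self H iso g m
  have a4 : d x (g⁻¹ • m) = d (g • x) m := by
    rw [← iso g x (g⁻¹ • m), smul_inv_smul]
  have s1 := H.symm (g • m) x
  have s2 := H.symm (g • x) m
  have s3 := H.symm (g • x) (g • m)
  have s4 := H.symm x (g • m)
  have b1 : Btw d x m (g • x) := h1
  have b2 : Btw d x (g • m) (g • x) := by
    unfold Btw; grind
  by_cases hc : d x m + d x m < d x (g • x)
  · have hd : d m (g • m) = d x (g • m) - d x m := H.two_btw b1 b2 (by grind)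
    refine ⟨m, ?_, ?_, ?_, ?_, ?_⟩
    · unfold OnAxis Btw
      have t1 := H.tri (g⁻¹ • x) (g⁻¹ • m) (g • x)
      have t2 := H.tri (g⁻¹ • m) (g • m) (g • x)
      have t3 : d (g⁻¹ • x) (g⁻¹ • m) = d x m := iso g⁻¹ x m
      have t4 := H.symm (g • x) (g⁻¹ • x)
      have t5 := H.tri (g⁻¹ • m) m (g • m)
      have t6 := H.symm (g⁻¹ • m) m
      have t7 := H.symm m (g • x)
      grind
    · unfold Btw; grind
    · unfold Btw; grind
    · grind
    · grind
  · exfalso
    have hd : d (g • m) m = d x m - d x (g • m) := H.two_btw b2 b1 (by grind)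
    have hd' : d (g • g • m) (g • m) = d (g • m) m := iso g _ _
    have e1 : d (g • x) (g • g • m) = d x (g • m) := iso g _ _
    have t1 := H.tri x (g • m) (g • g • m)
    have t2 := H.tri x (g • g • m) (g • x)
    have s5 := H.symm (g • m) (g • g • m)
    have s6 := H.symm (g • x) (g • g • m)
    have b3 : Btw d x (g • g • m) (g • x) := by
      unfold Btw; grind
    have b4 : d x (g • g • m) = d x m := by grind
    have : g • g • m = m := H.uniq b3 b1 b4
    exact free g hg m (g • m) ⟨rfl, this⟩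

omit free in
/-- the displacement is constant on the axis -/
theorem disp_eq {g : G} {x y : T} (hx : OnAxis d g x) (hy : OnAxis d g y) :
    d x (g • x) = d y (g • y) := by
  have h1 := H.branch hx y
  have h2 := H.branch hy x
  have a1 := dist_inv_self H iso g x
  have a2 := dist_inv_self H iso g y
  have a3 : d x (g⁻¹ • y) = d y (g • x) := by rw [H.symm x, dist_inv H iso]
  have a4 : d y (g⁻¹ • x) = d x (g • y) := by rw [H.symm y, dist_inv H iso]
  have s1 := H.symm x y
  have t1 := H.tri y x (g • x)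
  have t2 := H.tri y x (g⁻¹ • x)
  have t3 := H.tri x y (g • y)
  have t4 := H.tri x y (g⁻¹ • y)
  unfold Btw at h1 h2
  grind

theorem onAxis_of_le {g : G} (hg : g ≠ 1) {x y : T} (hx : OnAxis d g x)
    (h : d y (g • y) ≤ d x (g • x)) : OnAxis d g y := by
  obtain ⟨m, h1, h2, h3, h4, h5⟩ := exists_proj H iso free hg y
  have h6 := disp_eq H iso h1 hx
  have h7 := H.nonneg y m
  have h8 : d y m = 0 := by grind
  have h9 := (H.eq_iff y m).1 h8
  rw [h9]
  exact h1

theorem onAxis_convex {g : G} (hg : g ≠ 1) {x w z : T} (hx : OnAxis d g x) (hz : OnAxis d g z)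
    (h : Btw d x w z) : OnAxis d g w := by
  apply onAxis_of_le H iso free hg hx
  have hxz := disp_eq H iso hx hz
  have h1 := H.branch h (g • w)
  have hg' : Btw d (g • x) (g • w) (g • z) := by
    unfold Btw at *
    rw [iso, iso, iso]
    exact h
  have h2 := H.branch hg' x
  have h3 := H.branch hg' z
  have e1 : d (g • w) (g • x) = d w x := iso g _ _
  have e2 : d (g • w) (g • z) = d w z := iso g _ _
  have s1 := H.symm w (g • w)
  have s2 := H.symm x (g • w)
  have s3 := H.symm z (g • w)
  have s4 := H.symm x w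
  have t1 := H.tri x z (g • z)
  have t2 := H.tri z x (g • x)
  have s5 := H.symm x z
  have n1 := H.nonneg w x
  have n2 := H.nonneg w z
  unfold Btw at h h1 h2 h3
  clear free iso
  grind

theorem eq_or_eq {g : G} (hg : g ≠ 1) {x z : T} (hx : OnAxis d g x) (hz : OnAxis d g z)
    (h : d x z = d x (g • x)) : z = g • x ∨ z = g⁻¹ • x := by
  have hxz := disp_eq H iso hx hz
  have h1 := H.branch hx z
  have s1 := H.symm z x
  have a1 := dist_inv_self H iso g x
  have a2 := dist_inv_self H iso g z
  rcases h1 with h1 | h1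
  · left
    have h2 := H.four x (g • x) z (g • z)
    have h2' := H.four x z (g • x) (g • z)
    have h3 := H.four (g • x) x z (g • z)
    have h4 := H.four (g • x) x (g • z) z
    have e1 : d (g • x) (g • z) = d x z := iso g _ _
    have e2 : d x (g • z) = d z (g⁻¹ • x) := by rw [H.symm z, dist_inv H iso]
    have s2 := H.symm (g • x) z
    have s3 := H.symm (g • z) z
    have s4 := H.symm (g • x) x
    have s5 := H.symm (g • z) (g • x)
    have n1 := H.nonneg (g • x) z
    apply ((H.eq_iff (g • x) z).1 _).symm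
    unfold Btw at h1
    clear free iso
    grind
  · right
    have e1 : d (g⁻¹ • x) (g⁻¹ • z) = d x z := iso g⁻¹ _ _
    have e2 : d x (g⁻¹ • z) = d z (g • x) := by rw [H.symm x, dist_inv H iso]
    have h2 := H.four (g⁻¹ • x) x z (g⁻¹ • z)
    have h4 := H.four (g⁻¹ • x) x (g⁻¹ • z) z
    have s2 := H.symm (g⁻¹ • x) z
    have s3 := H.symm (g⁻¹ • z) z
    have s4 := H.symm (g⁻¹ • x) x
    have s5 := H.symm (g⁻¹ • z) (g⁻¹ • x)
    have n1 := H.nonneg (g⁻¹ • x) z
    apply ((H.eq_iff (g⁻¹ • x) z).1 _).symm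
    unfold Btw at h1
    clear free iso
    grind

/-- a conjugate `c ≠ a, a⁻¹` of `a` moves the axis of `a` off itself -/
theorem axis_disjoint {a k : G} (ha : a ≠ 1) (h1 : k * a * k⁻¹ ≠ a) (h2 : k * a * k⁻¹ ≠ a⁻¹)
    {y : T} (hy : OnAxis d a y) : ¬ OnAxis d a ((k * a * k⁻¹) • y) := by
  intro hcy
  have hc : k * a * k⁻¹ ≠ 1 := by
    intro h
    apply ha
    have : a = k⁻¹ * (k * a * k⁻¹) * k := by group
    rw [this, h]; group
  obtain ⟨m, m1, m2, m3, m4, m5⟩ := exists_proj H iso free hc y
  generalize hcdef : k * a * k⁻¹ = c at *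
  -- `m` and `c m` are between `y` and `c y`
  have e1 : d (c • y) (c • m) = d y m := iso c _ _
  have e2 := H.symm (c • y) (c • m)
  have b1 : Btw d y m (c • y) := m5
  have b2 : Btw d y (c • m) (c • y) := by
    unfold Btw at m2 ⊢
    clear free iso
    grind
  have o1 : OnAxis d a m := onAxis_convex H iso free ha hy hcy b1
  have o2 : OnAxis d a (c • m) := onAxis_convex H iso free ha hy hcy b2
  have o3 : OnAxis d a (k⁻¹ • m) := by
    rw [← hcdef] at m1
    exact (onAxis_conj H iso).1 m1
  have e3 : d (k⁻¹ • m) (a • k⁻¹ • m) = d m (c • m) := by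
    rw [← iso k, smul_inv_smul, ← hcdef]
    simp only [smul_smul, mul_assoc]
  have e4 := disp_eq H iso o1 o3
  have e5 : d m (c • m) = d m (a • m) := by rw [e4, e3]
  have key : ∀ g : G, c • m = g • m → c = g := by
    intro g hg
    by_contra hne
    have hne' : g⁻¹ * c ≠ 1 := fun h => hne (inv_mul_eq_one.1 h).symm
    refine free _ hne' m m ⟨?_, ?_⟩ <;> rw [mul_smul, hg, inv_smul_smul]
  rcases eq_or_eq H iso free ha o1 o2 e5 with h | h
  · exact h1 (key _ h)
  · exact h2 (key _ h)

/-- two elements in general position at a point -/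
theorem exists_pair {a k : G} (ha : a ≠ 1) (h1 : k * a * k⁻¹ ≠ a) (h2 : k * a * k⁻¹ ≠ a⁻¹)
    (o : T) : ∃ (g h : G) (p : T), g ≠ 1 ∧ h ≠ 1 ∧ Btw d (g • p) p (h • p) ∧
      Btw d (g⁻¹ • p) p (h • p) ∧ Btw d (g • p) p (h⁻¹ • p) ∧ Btw d (g⁻¹ • p) p (h⁻¹ • p) := by
  obtain ⟨y, hy, -⟩ := exists_proj H iso free ha o
  have hdis : ∀ w, OnAxis d a w → ¬ OnAxis d a ((k * a * k⁻¹) • w) :=
    fun w hw => axis_disjoint H iso free ha h1 h2 hw
  generalize hcdef : k * a * k⁻¹ = c at *
  have hh1 : c * a * c⁻¹ ≠ 1 := by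
    intro h
    apply ha
    have : a = c⁻¹ * (c * a * c⁻¹) * c := by group
    rw [this, h]; group
  have hz : OnAxis d (c * a * c⁻¹) (c • y) := by
    rw [onAxis_conj H iso, inv_smul_smul]
    exact hy
  have hdis' : ∀ w, OnAxis d a w → ¬ OnAxis d (c * a * c⁻¹) w := by
    intro w hw hw'
    rw [onAxis_conj H iso] at hw'
    apply hdis _ hw'
    rw [smul_inv_smul]
    exact hw
  generalize hhdef : c * a * c⁻¹ = h at *
  obtain ⟨p, p1, p2, p3, -, -⟩ := exists_proj H iso free ha (c • y)
  obtain ⟨q, q1, q2, q3, q4, q5⟩ := exists_proj H iso free hh1 p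
  have hpq : p ≠ q := by
    rintro rfl
    exact hdis' _ p1 q1
  have hzpq : ¬ Btw d (c • y) p q := by
    intro hb
    exact hdis' _ p1 (onAxis_convex H iso free hh1 hz q1 hb)
  have hq1 : Btw d (a • p) p q := by
    rcases H.branch p2 q with hb | hb
    · exact absurd (H.btw_symm hb) hzpq
    · exact H.btw_symm hb
  have hq2 : Btw d (a⁻¹ • p) p q := by
    rcases H.branch p3 q with hb | hb
    · exact absurd (H.btw_symm hb) hzpq
    · exact H.btw_symm hb
  have hq3 : Btw d p q (h • p) := q5
  have hq4 : Btw d p q (h⁻¹ • p) := by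
    unfold Btw at q3 ⊢
    have e1 : d (h⁻¹ • q) (h⁻¹ • p) = d q p := iso h⁻¹ _ _
    have e2 := dist_inv_self H iso h p
    have e3 := dist_inv_self H iso h q
    have e4 := H.tri q (h⁻¹ • q) (h⁻¹ • p)
    have e5 := H.tri p q (h⁻¹ • p)
    have e6 := H.symm q p
    clear free iso
    grind
  have fin : ∀ u v : T, Btw d u p q → Btw d p q v → Btw d u p v := by
    intro u v hu hv
    have h3 := H.chain hu hpq hv
    have t1 := H.tri u p v
    have t2 := H.tri u q v
    unfold Btw at *
    clear free iso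
    grind
  exact ⟨a, h, p, ha, hh1, fin _ _ hq1 hq3, fin _ _ hq2 hq3, fin _ _ hq1 hq4, fin _ _ hq2 hq4⟩

omit free in
/-- a square root moves a point of the axis to the midpoint -/
theorem half {v : G} {p : T} (hne : p ≠ (v * v) • p)
    (h : d p ((v * v) • (v * v) • p) = d p ((v * v) • p) + d p ((v * v) • p)) :
    d p ((v * v) • p) = d p (v • p) + d p (v • p) := by
  simp only [mul_smul] at *
  set x1 := v • p with hx1
  set x2 := v • x1 with hx2
  set x3 := v • x2 with hx3
  set x4 := v • x3 with hx4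
  have e1 : d x1 x2 = d p x1 := iso v _ _
  have e2 : d x2 x3 = d x1 x2 := iso v _ _
  have e3 : d x3 x4 = d x2 x3 := iso v _ _
  have f1 : d x1 x3 = d p x2 := iso v _ _
  have f2 : d x2 x4 = d x1 x3 := iso v _ _
  have g1 : d x1 x4 = d p x3 := iso v _ _
  have q1 := H.four x1 p x2 x4
  have q2 := H.four x1 p x4 x2
  have q3 := H.four x1 p x2 x3
  have q4 := H.four x1 p x3 x2
  have t1 := H.tri p x1 x2
  have n1 := H.pos hne
  have s1 := H.symm x1 p
  have s2 := H.symm x2 p
  have s3 := H.symm x4 x2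
  have s4 := H.symm x3 x2
  have s5 := H.symm x2 x1
  have q5 := H.four x2 p x1 x4
  have q6 := H.four x2 p x4 x1
  have q7 := H.four x2 p x1 x3
  have q8 := H.four x2 p x3 x1
  have s6 := H.symm x4 x1
  have s7 := H.symm x3 x1
  clear iso
  grind

omit H free in
theorem btw_smul (k : G) {x y z : T} (h : Btw d x y z) : Btw d (k • x) (k • y) (k • z) := by
  unfold Btw at *
  rw [iso, iso, iso]
  exact h

omit free in
/-- the square root of `w` moves `x` to the middle point `m` of `x` and `w x` -/
theorem root_eq {v w : G} (hv : v * v = w) {x m : T} (hne : x ≠ w • x)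
    (h1 : d x (w • w • x) = d x (w • x) + d x (w • x))
    (h2 : d x m + d x m = d x (w • x)) (h3 : d m (w • x) = d x m) : v • x = m := by
  subst hv
  have h4 := half H iso hne h1
  have e1 : d (v • x) ((v * v) • x) = d x (v • x) := by
    rw [mul_smul]; exact iso v _ _
  apply H.uniq (x := x) (y := (v * v) • x)
  · unfold Btw; rw [e1]; exact h4.symm
  · unfold Btw; rw [h3]; exact h2
  · clear iso; grind

theorem no_root {g h v : G} {p : T} (hg : g ≠ 1) (hh : h ≠ 1) (h1 : Btw d (g • p) p (h • p))
    (h2 : Btw d (g⁻¹ • p) p (h • p)) (h3 : Btw d (g • p) p (h⁻¹ • p))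
    (h4 : Btw d (g⁻¹ • p) p (h⁻¹ • p)) (hv : v * v = g * h * g⁻¹ * h⁻¹) : False := by
  have ng : ∀ x : T, x ≠ g • x := fun x hx => free g hg x x ⟨hx.symm, hx.symm⟩
  have nh : ∀ x : T, x ≠ h • x := fun x hx => free h hh x x ⟨hx.symm, hx.symm⟩
  have lg : ∀ k : G, d (k • p) ((k * g) • p) = d p (g • p) := by
    intro k; rw [mul_smul]; exact iso k _ _
  have lh : ∀ k : G, d (k • p) ((k * h) • p) = d p (h • p) := by
    intro k; rw [mul_smul]; exact iso k _ _
  have lg' : ∀ k : G, d (k • p) ((k * g⁻¹) • p) = d p (g • p) := by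
    intro k; rw [mul_smul, iso k]; exact dist_inv_self H iso g p
  have lh' : ∀ k : G, d (k • p) ((k * h⁻¹) • p) = d p (h • p) := by
    intro k; rw [mul_smul, iso k]; exact dist_inv_self H iso h p
  have c0 : ∀ k : G, Btw d (k • p) ((k * g) • p) ((k * g * h) • p) := by
    intro k
    have := btw_smul iso (k * g) h2
    rwa [← mul_smul, mul_inv_cancel_right, ← mul_smul] at this
  have c1 : ∀ k : G, Btw d (k • p) ((k * h) • p) ((k * h * g⁻¹) • p) := by
    intro k
    have := btw_smul iso (k * h) (H.btw_symm h4)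
    rwa [← mul_smul, mul_inv_cancel_right, ← mul_smul] at this
  have c2 : ∀ k : G, Btw d (k • p) ((k * g⁻¹) • p) ((k * g⁻¹ * h⁻¹) • p) := by
    intro k
    have := btw_smul iso (k * g⁻¹) h3
    rwa [← mul_smul, inv_mul_cancel_right, ← mul_smul] at this
  have c3 : ∀ k : G, Btw d (k • p) ((k * h⁻¹) • p) ((k * h⁻¹ * g) • p) := by
    intro k
    have := btw_smul iso (k * h⁻¹) (H.btw_symm h1)
    rwa [← mul_smul, inv_mul_cancel_right, ← mul_smul] at this
  have pg : 0 < d p (g • p) := H.pos (ng p)
  have ph : 0 < d p (h • p) := H.pos (nh p)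
  have ne_of : ∀ {x y : T} {l : Lam}, 0 < l → d x y = l → x ≠ y := by
    intro x y l hl hxy he
    rw [he, H.self] at hxy
    rw [← hxy] at hl
    exact lt_irrefl _ hl
  -- the points
  set k1 : G := 1 * g with hk1
  set k2 : G := k1 * h with hk2
  set k3 : G := k2 * g⁻¹ with hk3
  set k4 : G := k3 * h⁻¹ with hk4
  set k5 : G := k4 * g with hk5
  set k6 : G := k5 * h with hk6
  set k7 : G := k6 * g⁻¹ with hk7
  set k8 : G := k7 * h⁻¹ with hk8
  set k9 : G := k8 * g with hk9
  have hw : k4 = v * v := by rw [hv, hk4, hk3, hk2, hk1, one_mul]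
  have d01 := lg 1
  have d12 := lh k1
  have d23 := lg' k2
  have d34 := lh' k3
  have d45 := lg k4
  have d56 := lh k5
  have d67 := lg' k6
  have d78 := lh' k7
  have d89 := lg k8
  have b012 := c0 1
  have b123 := c1 k1
  have b234 := c2 k2
  have b345 := c3 k3
  have b456 := c0 k4
  have b567 := c1 k5
  have b678 := c2 k6
  have b789 := c3 k7
  rw [one_smul] at d01 b012
  have C2 := H.chain b012 (ne_of ph d12) b123
  have C3 := H.chain C2 (ne_of pg d23) b234
  have C4 := H.chain C3 (ne_of ph d34) b345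
  have C5 := H.chain C4 (ne_of pg d45) b456
  have C6 := H.chain C5 (ne_of ph d56) b567
  have C7 := H.chain C6 (ne_of pg d67) b678
  have E3 := H.chain b123 (ne_of pg d23) b234
  have E4 := H.chain E3 (ne_of ph d34) b345
  have E5 := H.chain E4 (ne_of pg d45) b456
  have E6 := H.chain E5 (ne_of ph d56) b567
  have E7 := H.chain E6 (ne_of pg d67) b678
  have E8 := H.chain E7 (ne_of ph d78) b789
  have F3 := b234
  have F4 := b345
  unfold Btw at b012 b123 F3 F4 C2 C3 C4 C5 C6 C7 E3 E4 E5 E6 E7 E8
  have hk8' : k8 = k4 * k4 := by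
    rw [hk8, hk7, hk6, hk5, hk4, hk3, hk2, hk1]; group
  have hk5' : k5 = k4 * k1 := by rw [hk5, hk1, one_mul]
  have hk9' : k9 = k4 * (k4 * k1) := by rw [hk9, hk8', hk1]; group
  have D4 : d p (k4 • p) = d p (g • p) + d p (h • p) + d p (g • p) + d p (h • p) := by
    clear iso free; grind
  have D8 : d p (k8 • p) = d p (k4 • p) + d p (k4 • p) := by
    clear iso free; grind
  have D5 : d (k1 • p) (k5 • p) = d p (g • p) + d p (h • p) + d p (g • p) + d p (h • p) := by
    clear iso free; grind
  have D9 : d (k1 • p) (k9 • p) = d (k1 • p) (k5 • p) + d (k1 • p) (k5 • p) := by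
    clear iso free; grind
  have r1 : v • p = k2 • p := by
    apply root_eq H iso hw.symm
    · exact ne_of (l := d p (g • p) + d p (h • p) + d p (g • p) + d p (h • p))
        (by clear iso free; grind) D4
    · rw [← mul_smul, ← hk8']; exact D8
    · clear iso free; grind
    · clear iso free; grind
  have r2 : v • k1 • p = k3 • p := by
    apply root_eq H iso hw.symm
    · rw [← mul_smul, ← hk5']
      exact ne_of (l := d p (g • p) + d p (h • p) + d p (g • p) + d p (h • p))
        (by clear iso free; grind) D5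
    · rw [← mul_smul k4 k1, ← mul_smul k4, ← hk9', ← hk5']; exact D9
    · rw [← mul_smul k4 k1, ← hk5']
      clear iso free; grind
    · rw [← mul_smul k4 k1, ← hk5']
      clear iso free; grind
  have hu : k3⁻¹ * v ≠ 1 := by
    intro hu
    have hvk : v = k3 := (inv_mul_eq_one.1 hu).symm
    rw [hvk] at r1
    apply ng p
    have h5 : k3 = k2 * g⁻¹ := hk3
    rw [h5, mul_smul] at r1
    have h6 := MulAction.injective k2 r1
    rw [inv_smul_eq_iff] at h6
    exact h6
  refine free _ hu p (g • p) ⟨?_, ?_⟩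
  · rw [mul_smul, r1, inv_smul_eq_iff, hk3, mul_smul k2, inv_smul_smul]
  · have : g • p = k1 • p := by rw [hk1, one_mul]
    rw [this, mul_smul, r2, inv_smul_smul]

/-- **Theorem.** A group in which every element is a square and which acts freely and without
inversions on a (nonempty) space as above is abelian. -/
theorem comm_of_squares (o : T) (sq : ∀ g : G, ∃ x : G, x * x = g) (a b : G) : a * b = b * a := by
  by_contra hab
  obtain ⟨k, hk⟩ := sq b
  have ha : a ≠ 1 := by
    rintro rfl
    apply hab; simp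
  have h1 : k * a * k⁻¹ ≠ a := by
    intro h
    apply hab
    have h2 : k * a = a * k := mul_inv_eq_iff_eq_mul.1 h
    rw [← hk, ← mul_assoc, ← h2, mul_assoc, ← h2, mul_assoc]
  have h2 : k * a * k⁻¹ ≠ a⁻¹ := by
    intro h
    apply hab
    have h3 : k * a = a⁻¹ * k := mul_inv_eq_iff_eq_mul.1 h
    have h4 : k * a⁻¹ = a * k := by
      have : k * a⁻¹ * k⁻¹ = a := by
        have h5 : k * a⁻¹ * k⁻¹ = (k * a * k⁻¹)⁻¹ := by group
        rw [h5, h, inv_inv]
      exact mul_inv_eq_iff_eq_mul.1 this
    rw [← hk, ← mul_assoc, ← h4, mul_assoc, ← h3, mul_assoc]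
  obtain ⟨g, h, p, hg, hh, q1, q2, q3, q4⟩ := exists_pair H iso free ha h1 h2 o
  obtain ⟨v, hv⟩ := sq (g * h * g⁻¹ * h⁻¹)
  exact no_root H iso free hg hh q1 q2 q3 q4 hv

end action

end Pool.Agent.V8H66.LT
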