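import Pool.Agent.V8H66.LT.Tree

/-!
# Free `ℚ`-groups exist, and those of rank at least two are not abelian
-/

set_option autoImplicit false
set_option linter.unusedSectionVars false
set_option linter.unusedVariables false

namespace Pool.Agent.V8H66.LT

universe u v w

/-- terms in the operations of a `ℚ`-group -/
inductive Tm (X : Type u) : Type u
  | var : X → Tm X
  | one : Tm X
  | mul : Tm X → Tm X → Tm X
  | inv : Tm X → Tm X
  | root : ℕ → Tm X → Tm X

/-- the value of a term -/
noncomputable def Tm.eval {X : Type u} {H : Type u} [Group H] (hH : IsQGroup H) (f : X → H) :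
    Tm X → H
  | .var x => f x
  | .one => 1
  | .mul s t => s.eval hH f * t.eval hH f
  | .inv s => (s.eval hH f)⁻¹
  | .root n s => (hH (s.eval hH f) (n + 1) (Nat.le_add_left 1 n)).choose

/-- two terms are equivalent if they have the same values in all `ℚ`-groups -/
def tmSetoid (X : Type u) : Setoid (Tm X) where
  r s t := ∀ (H : Type u) [Group H] (hH : IsQGroup H) (f : X → H), s.eval hH f = t.eval hH f
  iseqv := ⟨fun _ _ _ _ _ => rfl, fun h H _ hH f => (h H hH f).symm,
    fun h h' H _ hH f => (h H hH f).trans (h' H hH f)⟩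

/-- the free `ℚ`-group -/
def FreeQ (X : Type u) : Type u := Quotient (tmSetoid X)

namespace FreeQ

variable {X : Type u}

def mk (s : Tm X) : FreeQ X := Quotient.mk (tmSetoid X) s

theorem mk_eq {s t : Tm X} : mk s = mk t ↔
    ∀ (H : Type u) [Group H] (hH : IsQGroup H) (f : X → H), s.eval hH f = t.eval hH f :=
  ⟨fun h => Quotient.exact h, fun h => Quotient.sound h⟩

instance : Mul (FreeQ X) := ⟨Quotient.map₂ Tm.mul (by
  intro a b h c e h' H _ hH f
  show _ * _ = _ * _
  rw [h H hH f, h' H hH f])⟩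

instance : One (FreeQ X) := ⟨mk .one⟩

instance : Inv (FreeQ X) := ⟨Quotient.map Tm.inv (by
  intro a b h H _ hH f
  show _⁻¹ = _⁻¹
  rw [h H hH f])⟩

theorem mk_mul (s t : Tm X) : mk s * mk t = mk (.mul s t) := rfl

theorem mk_inv (s : Tm X) : (mk s)⁻¹ = mk (.inv s) := rfl

theorem mk_one : (1 : FreeQ X) = mk .one := rfl

theorem surj (a : FreeQ X) : ∃ s, mk s = a := Quotient.exists_rep a

noncomputable instance : Group (FreeQ X) := Group.ofLeftAxioms
  (by
    intro a b c
    obtain ⟨s, rfl⟩ := surj a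
    obtain ⟨t, rfl⟩ := surj b
    obtain ⟨r, rfl⟩ := surj c
    rw [mk_mul, mk_mul, mk_mul, mk_mul, mk_eq]
    intro H _ hH f
    exact mul_assoc _ _ _)
  (by
    intro a
    obtain ⟨s, rfl⟩ := surj a
    rw [mk_one, mk_mul, mk_eq]
    intro H _ hH f
    exact one_mul _)
  (by
    intro a
    obtain ⟨s, rfl⟩ := surj a
    rw [mk_one, mk_inv, mk_mul, mk_eq]
    intro H _ hH f
    exact inv_mul_cancel _)

/-- evaluation as a homomorphism -/
noncomputable def lift {H : Type u} [Group H] (hH : IsQGroup H) (f : X → H) : FreeQ X →* H :=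
  MonoidHom.mk' (Quotient.lift (fun s => s.eval hH f) (fun _ _ h => h H hH f)) (by
    intro a b
    obtain ⟨s, rfl⟩ := surj a
    obtain ⟨t, rfl⟩ := surj b
    rfl)

theorem lift_mk {H : Type u} [Group H] (hH : IsQGroup H) (f : X → H) (s : Tm X) :
    lift hH f (mk s) = s.eval hH f := rfl

/-- an element is determined by its values -/
theorem ext_lift {a b : FreeQ X}
    (h : ∀ (H : Type u) [Group H] (hH : IsQGroup H) (f : X → H), lift hH f a = lift hH f b) :
    a = b := by
  obtain ⟨s, rfl⟩ := surj a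
  obtain ⟨t, rfl⟩ := surj b
  rw [mk_eq]
  exact h

theorem root_spec (n : ℕ) (s : Tm X) : mk (.root n s) ^ (n + 1) = mk s := by
  apply ext_lift
  intro H _ hH f
  rw [map_pow, lift_mk, lift_mk]
  exact (hH (s.eval hH f) (n + 1) (Nat.le_add_left 1 n)).choose_spec.1

theorem isQGroup : IsQGroup (FreeQ X) := by
  intro g n hn
  obtain ⟨n, rfl⟩ := Nat.exists_eq_add_of_le' hn
  obtain ⟨s, rfl⟩ := surj g
  refine ⟨mk (.root n s), root_spec n s, ?_⟩
  intro y hy
  apply ext_lift
  intro H _ hH f
  apply (hH (lift hH f (mk s)) (n + 1) (Nat.le_add_left 1 n)).unique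
  · rw [← map_pow, hy]
  · rw [← map_pow, root_spec]

theorem isFree : IsFreeQGroup (fun x : X => mk (.var x)) := by
  refine ⟨isQGroup, ?_⟩
  intro H _ hH f
  refine ⟨lift hH f, fun x => rfl, ?_⟩
  intro φ hφ
  ext a
  obtain ⟨s, rfl⟩ := surj a
  rw [lift_mk]
  induction s with
  | var x => exact hφ x
  | one => rw [← mk_one, map_one]; rfl
  | mul s t hs ht => rw [← mk_mul, map_mul, hs, ht]; rfl
  | inv s hs => rw [← mk_inv, map_inv, hs]; rfl
  | root n s hs =>
    apply (hH (s.eval hH f) (n + 1) (Nat.le_add_left 1 n)).unique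
    · rw [← map_pow, root_spec, hs]
    · exact (hH (s.eval hH f) (n + 1) (Nat.le_add_left 1 n)).choose_spec.1

end FreeQ

/-- the Heisenberg group over the rational numbers -/
@[ext] structure Heis : Type where
  a : ℚ
  b : ℚ
  c : ℚ

namespace Heis

instance : Mul Heis := ⟨fun x y => ⟨x.a + y.a, x.b + y.b, x.c + y.c + x.a * y.b⟩⟩
instance : One Heis := ⟨⟨0, 0, 0⟩⟩
instance : Inv Heis := ⟨fun x => ⟨-x.a, -x.b, -x.c + x.a * x.b⟩⟩

theorem mul_def (x y : Heis) : x * y = ⟨x.a + y.a, x.b + y.b, x.c + y.c + x.a * y.b⟩ := rfl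
theorem one_def : (1 : Heis) = ⟨0, 0, 0⟩ := rfl
theorem inv_def (x : Heis) : x⁻¹ = ⟨-x.a, -x.b, -x.c + x.a * x.b⟩ := rfl

instance : Group Heis := Group.ofLeftAxioms
  (by intro x y z; simp only [mul_def]; ext <;> simp only <;> ring)
  (by intro x; simp only [mul_def, one_def]; ext <;> simp)
  (by intro x; simp only [mul_def, one_def, inv_def]; ext <;> simp only <;> ring)

theorem pow_def (x : Heis) (n : ℕ) :
    x ^ n = ⟨n * x.a, n * x.b, n * x.c + (n * (n - 1) / 2) * (x.a * x.b)⟩ := by
  induction n with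
  | zero => rw [pow_zero, one_def]; ext <;> simp
  | succ n ih =>
    rw [pow_succ, ih, mul_def]
    ext <;> simp only <;> push_cast <;> ring

theorem isQGroup : IsQGroup Heis := by
  intro g n hn
  have hn' : (n : ℚ) ≠ 0 := by
    have : n ≠ 0 := by omega
    exact_mod_cast this
  refine ⟨⟨g.a / n, g.b / n, (g.c - (n * (n - 1) / 2) * (g.a / n * (g.b / n))) / n⟩, ?_, ?_⟩
  · show _ ^ n = g
    rw [pow_def]
    ext
    · simp only; field_simp
    · simp only; field_simp
    · simp only
      rw [mul_div_cancel₀ _ hn']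
      ring
  · intro y hy
    have hy' : y ^ n = g := hy
    rw [pow_def] at hy'
    subst hy'
    ext
    · simp only; rw [mul_div_cancel_left₀ _ hn']
    · simp only; rw [mul_div_cancel_left₀ _ hn']
    · simp only
      rw [mul_div_cancel_left₀ _ hn', mul_div_cancel_left₀ _ hn', add_sub_cancel_right,
        mul_div_cancel_left₀ _ hn']

end Heis

theorem IsQGroup.ulift {G : Type v} [Group G] (h : IsQGroup G) : IsQGroup (ULift.{u} G) := by
  intro g n hn
  obtain ⟨x, hx, hu⟩ := h g.down n hn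
  refine ⟨⟨x⟩, ?_, ?_⟩
  · apply ULift.ext
    exact hx
  · intro y hy
    apply ULift.ext
    exact hu y.down (congrArg ULift.down hy)

/-- a free `ℚ`-group of rank at least two is not abelian -/
theorem IsFreeQGroup.not_comm {X F : Type u} [Group F] {ι : X → F} (h : IsFreeQGroup ι) {x y : X}
    (hxy : x ≠ y) : ι x * ι y ≠ ι y * ι x := by
  classical
  intro hc
  let f : X → ULift.{u} Heis := fun t => if t = x then ⟨⟨1, 0, 0⟩⟩ else ⟨⟨0, 1, 0⟩⟩
  obtain ⟨φ, hφ, -⟩ := h.2 (ULift.{u} Heis) Heis.isQGroup.ulift f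
  have h1 := congrArg φ hc
  rw [map_mul, map_mul, hφ, hφ] at h1
  have h2 := congrArg (fun z : ULift.{u} Heis => z.down.c) h1
  simp only [f, if_true, if_neg (Ne.symm hxy), ULift.mul_down, Heis.mul_def] at h2
  norm_num at h2

/-- a free `ℚ`-group of rank at least two does not act freely on a `Λ`-tree -/
theorem IsFreeQGroup.not_actsFreely {X F : Type u} [Group F] {ι : X → F} (h : IsFreeQGroup ι)
    (hX : Nontrivial X) {Lam : Type v} [AddCommGroup Lam] [LinearOrder Lam] [IsOrderedAddMonoid Lam]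
    {T : Type w} {d : T → T → Lam} [MulAction F T] (H : IsLambdaTree d) : ¬ ActsFreely d F := by
  intro hfree
  obtain ⟨x, y, hxy⟩ := hX.exists_pair_ne
  refine h.not_comm hxy (abelian_of_actsFreely H hfree ?_ _ _)
  intro g
  obtain ⟨r, hr, -⟩ := h.1 g 2 one_le_two
  exact ⟨r, by rw [← sq]; exact hr⟩

end Pool.Agent.V8H66.LT
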