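import Pool.Agent.V8H66.LT.Defs
import Pool.Agent.V8H66.LT.Geom

/-!
# `Λ`-trees: the four point condition; groups with square roots
-/

set_option autoImplicit false
set_option linter.unusedSectionVars false
set_option linter.unusedVariables false

namespace Pool.Agent.V8H66.LT

universe u v w

variable {Lam : Type u} [AddCommGroup Lam] [LinearOrder Lam] [IsOrderedAddMonoid Lam] {T : Type v}

section seg

variable {d : T → T → Lam}

theorem IsSegment.left_mem {x y : T} {S : Set T} (h : IsSegment d x y S) : x ∈ S := by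
  obtain ⟨a, b, α, hab, hα, rfl, rfl, rfl⟩ := h
  exact ⟨a, ⟨le_rfl, hab⟩, rfl⟩

theorem IsSegment.right_mem {x y : T} {S : Set T} (h : IsSegment d x y S) : y ∈ S := by
  obtain ⟨a, b, α, hab, hα, rfl, rfl, rfl⟩ := h
  exact ⟨b, ⟨hab, le_rfl⟩, rfl⟩

theorem IsSegment.btw {x y : T} {S : Set T} (h : IsSegment d x y S) {p : T} (hp : p ∈ S) :
    d x p + d p y = d x y := by
  obtain ⟨a, b, α, hab, hα, rfl, rfl, rfl⟩ := h
  obtain ⟨s, hs, rfl⟩ := hp
  rw [hα a ⟨le_rfl, hab⟩ s hs, hα s hs b ⟨hab, le_rfl⟩, hα a ⟨le_rfl, hab⟩ b ⟨hab, le_rfl⟩,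
    abs_of_nonpos (sub_nonpos.2 hs.1), abs_of_nonpos (sub_nonpos.2 hs.2),
    abs_of_nonpos (sub_nonpos.2 hab)]
  abel

theorem IsSegment.dist {x y : T} {S : Set T} (h : IsSegment d x y S) {p q : T} (hp : p ∈ S)
    (hq : q ∈ S) : d p q = |d x p - d x q| := by
  obtain ⟨a, b, α, hab, hα, rfl, rfl, rfl⟩ := h
  obtain ⟨s, hs, rfl⟩ := hp
  obtain ⟨t, ht, rfl⟩ := hq
  rw [hα s hs t ht, hα a ⟨le_rfl, hab⟩ s hs, hα a ⟨le_rfl, hab⟩ t ht,
    abs_of_nonpos (sub_nonpos.2 hs.1), abs_of_nonpos (sub_nonpos.2 ht.1)]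
  congr 1
  abel

theorem IsSegment.exists_at {x y : T} {S : Set T} (h : IsSegment d x y S) {r : Lam} (h0 : 0 ≤ r)
    (h1 : r ≤ d x y) : ∃ p ∈ S, d x p = r := by
  obtain ⟨a, b, α, hab, hα, rfl, rfl, rfl⟩ := h
  rw [hα a ⟨le_rfl, hab⟩ b ⟨hab, le_rfl⟩, abs_of_nonpos (sub_nonpos.2 hab)] at h1
  have hm : a + r ∈ Set.Icc a b := ⟨by grind, by grind⟩
  refine ⟨α (a + r), ⟨a + r, hm, rfl⟩, ?_⟩
  rw [hα a ⟨le_rfl, hab⟩ _ hm, abs_of_nonpos (by grind)]
  abel

theorem IsSegment.rev {x y : T} {S : Set T} (h : IsSegment d x y S) : IsSegment d y x S := by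
  obtain ⟨a, b, α, hab, hα, rfl, rfl, rfl⟩ := h
  refine ⟨-b, -a, fun t => α (-t), neg_le_neg hab, ?_, ?_, ?_, ?_⟩
  · intro s hs t ht
    rw [hα (-s) ⟨by grind, by grind⟩ (-t) ⟨by grind, by grind⟩, ← abs_neg]
    congr 1; abel
  · simp
  · simp
  · ext z
    constructor
    · rintro ⟨s, hs, rfl⟩
      exact ⟨-s, ⟨neg_le_neg hs.2, neg_le_neg hs.1⟩, by simp⟩
    · rintro ⟨s, hs, rfl⟩
      exact ⟨-s, ⟨by grind, by grind⟩, rfl⟩

/-- subsegments -/
theorem IsSegment.sub {u w : T} {R : Set T} (h : IsSegment d u w R) {x y : T} (hx : x ∈ R)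
    (hy : y ∈ R) : ∃ S, IsSegment d x y S ∧ S ⊆ R ∧ ∀ q ∈ R, d x q + d q y = d x y → q ∈ S := by
  obtain ⟨a, b, α, hab, hα, rfl, rfl, rfl⟩ := h
  obtain ⟨s, hs, rfl⟩ := hx
  obtain ⟨t, ht, rfl⟩ := hy
  rcases le_total s t with hst | hst
  · refine ⟨α '' Set.Icc s t, ⟨s, t, α, hst, ?_, rfl, rfl, rfl⟩, ?_, ?_⟩
    · intro p hp q hq
      exact hα p ⟨hs.1.trans hp.1, hp.2.trans ht.2⟩ q ⟨hs.1.trans hq.1, hq.2.trans ht.2⟩
    · exact Set.image_mono (Set.Icc_subset_Icc hs.1 ht.2)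
    · rintro _ ⟨r, hr, rfl⟩ h
      rw [hα s hs r hr, hα r hr t ht, hα s hs t ht] at h
      refine ⟨r, ?_, rfl⟩
      have h1 := abs_of_nonpos (sub_nonpos.2 hst)
      have h2 := le_abs_self (s - r)
      have h3 := neg_abs_le (s - r)
      have h4 := le_abs_self (r - t)
      have h5 := neg_abs_le (r - t)
      constructor <;> grind
  · refine ⟨(fun τ => α (-τ)) '' Set.Icc (-s) (-t), ⟨-s, -t, fun τ => α (-τ), neg_le_neg hst,
      ?_, by simp, by simp, rfl⟩, ?_, ?_⟩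
    · intro p hp q hq
      have hp1 := hp.1
      have hp2 := hp.2
      have hq1 := hq.1
      have hq2 := hq.2
      have hs2 := hs.2
      have ht1 := ht.1
      show d (α (-p)) (α (-q)) = |p - q|
      rw [hα (-p) ⟨by grind, by grind⟩ (-q) ⟨by grind, by grind⟩, ← abs_neg]
      congr 1; abel
    · rintro _ ⟨p, hp, rfl⟩
      have hp1 := hp.1
      have hp2 := hp.2
      have hs2 := hs.2
      have ht1 := ht.1
      exact ⟨-p, ⟨by grind, by grind⟩, rfl⟩
    · rintro _ ⟨r, hr, rfl⟩ h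
      rw [hα s hs r hr, hα r hr t ht, hα s hs t ht] at h
      have h1 := abs_of_nonneg (sub_nonneg.2 hst)
      have h2 := le_abs_self (s - r)
      have h3 := neg_abs_le (s - r)
      have h4 := le_abs_self (r - t)
      have h5 := neg_abs_le (r - t)
      refine ⟨-r, ⟨by grind, by grind⟩, by simp⟩

/-- one of three points of a segment is between the two others -/
theorem IsSegment.line {u w : T} {R : Set T} (h : IsSegment d u w R) {x y z : T} (hx : x ∈ R)
    (hy : y ∈ R) (hz : z ∈ R) : d x y + d y z = d x z ∨ d y x + d x z = d y z ∨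
      d x z + d z y = d x y := by
  rw [h.dist hx hy, h.dist hy hz, h.dist hx hz, h.dist hy hx, h.dist hz hy]
  generalize d u x = a
  generalize d u y = b
  generalize d u z = c
  rcases abs_cases (a - b) with ⟨h1, h1'⟩ | ⟨h1, h1'⟩ <;>
  rcases abs_cases (b - c) with ⟨h2, h2'⟩ | ⟨h2, h2'⟩ <;>
  rcases abs_cases (a - c) with ⟨h3, h3'⟩ | ⟨h3, h3'⟩ <;>
  rw [abs_sub_comm b a, abs_sub_comm c b, h1, h2, h3] <;> grind

end seg

section tree

variable {d : T → T → Lam} (H : IsLambdaTree d)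

include H

theorem IsLambdaTree.self (x : T) : d x x = 0 := (H.eq_iff x x).2 rfl

theorem IsLambdaTree.nonneg (x y : T) : 0 ≤ d x y := by
  have h1 := H.triangle x y x
  rw [H.self, H.symm y x] at h1
  grind

theorem IsLambdaTree.subset_of {x y : T} {S S' : Set T} (h : IsSegment d x y S)
    (h' : IsSegment d x y S') : S ⊆ S' := by
  obtain ⟨u, w, hR⟩ := H.inter x y y S S' h h'
  obtain ⟨S'', h1, h2, -⟩ := hR.sub (x := x) (y := y) ⟨h.left_mem, h'.left_mem⟩
    ⟨h.right_mem, h'.right_mem⟩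
  intro p hp
  have h3 := h.btw hp
  have h4 := H.nonneg p y
  obtain ⟨q, hq, hq'⟩ := h1.exists_at (H.nonneg x p) (by grind)
  have hq2 := h2 hq
  have h5 := h.dist hp hq2.1
  rw [hq', sub_self, abs_zero] at h5
  rw [(H.eq_iff p q).1 h5]
  exact hq2.2

theorem IsLambdaTree.median {x y z : T} {S S' : Set T} (h : IsSegment d x y S)
    (h' : IsSegment d x z S') : ∃ m ∈ S ∩ S', d y m + d m z = d y z := by
  obtain ⟨u, w, hR⟩ := H.inter x y z S S' h h'
  have hxR : x ∈ S ∩ S' := ⟨h.left_mem, h'.left_mem⟩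
  have key : ∃ m, IsSegment d x m (S ∩ S') := by
    have h1 := hR.btw hxR
    have h2 := h.dist hR.left_mem.1 hR.right_mem.1
    have h3 := H.symm u x
    have h4 := H.nonneg x u
    have h5 := H.nonneg x w
    have h6 : d x u = 0 ∨ d x w = 0 := by
      rcases abs_cases (d x u - d x w) with ⟨h7, h8⟩ | ⟨h7, h8⟩
      · right; grind
      · left; grind
    rcases h6 with h6 | h6
    · rw [H.eq_iff] at h6
      subst h6
      exact ⟨w, hR⟩
    · rw [H.eq_iff] at h6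
      subst h6
      exact ⟨u, hR.rev⟩
  obtain ⟨m, hm⟩ := key
  have hmR := hm.right_mem
  refine ⟨m, hmR, ?_⟩
  obtain ⟨S1, a1, a2, a3⟩ := h.sub h.right_mem hmR.1
  obtain ⟨S2, b1, b2, b3⟩ := h'.sub hmR.2 h'.right_mem
  have hint : S1 ∩ S2 = {m} := by
    ext p
    constructor
    · rintro ⟨hp1, hp2⟩
      have e1 := hm.btw ⟨a2 hp1, b2 hp2⟩
      have e2 := a1.btw hp1
      have e3 := h.btw (a2 hp1)
      have e4 := h.btw hmR.1
      have e5 := H.symm y p
      have e6 := H.symm y m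
      have e7 := H.nonneg p m
      rw [Set.mem_singleton_iff, ← H.eq_iff]
      grind
    · rintro rfl
      exact ⟨a1.right_mem, b1.left_mem⟩
  obtain ⟨u', w', hU⟩ := H.union y m z S1 S2 a1 b1 hint
  have my : y ∈ S1 ∪ S2 := Or.inl a1.left_mem
  have mm : m ∈ S1 ∪ S2 := Or.inl a1.right_mem
  have mz : z ∈ S1 ∪ S2 := Or.inr b1.right_mem
  rcases hU.line my mm mz with h1 | h1 | h1
  · exact h1
  · obtain ⟨S3, c1, c2, c3⟩ := hU.sub mm mz
    have h2 : y ∈ S1 ∩ S2 := ⟨a1.left_mem, H.subset_of c1 b1 (c3 y my h1)⟩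
    rw [hint, Set.mem_singleton_iff] at h2
    subst h2
    rw [H.self, zero_add]
  · obtain ⟨S3, c1, c2, c3⟩ := hU.sub my mm
    have h2 : z ∈ S1 ∩ S2 := ⟨H.subset_of c1 a1 (c3 z mz h1), b1.right_mem⟩
    rw [hint, Set.mem_singleton_iff] at h2
    subst h2
    rw [H.self, add_zero]

theorem IsLambdaTree.hyp : Hyp d := by
  refine ⟨H.eq_iff, H.symm, ?_, ?_⟩
  · intro o x y z
    obtain ⟨Sx, hSx⟩ := H.joined o x
    obtain ⟨Sy, hSy⟩ := H.joined o y
    obtain ⟨Sz, hSz⟩ := H.joined o z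
    obtain ⟨m1, ⟨a1, a2⟩, a3⟩ := H.median hSx hSy
    obtain ⟨m2, ⟨b1, b2⟩, b3⟩ := H.median hSy hSz
    rcases le_total (d o m1) (d o m2) with hle | hle
    · left
      obtain ⟨A, c1, c2, c3⟩ := hSy.sub hSy.left_mem b1
      obtain ⟨B, e1, e2, e3⟩ := hSz.sub hSz.left_mem b2
      have f1 := hSy.dist a2 b1
      rw [abs_of_nonpos (sub_nonpos.2 hle)] at f1
      have f2 : m1 ∈ Sz := e2 (H.subset_of c1 e1 (c3 m1 a2 (by rw [f1]; abel)))
      have g1 := hSz.btw f2
      have g2 := hSy.btw a2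
      have g3 := hSx.btw a1
      have g4 := H.triangle x m1 z
      have g5 := H.symm x m1
      grind
    · right
      obtain ⟨A, c1, c2, c3⟩ := hSy.sub hSy.left_mem a2
      obtain ⟨B, e1, e2, e3⟩ := hSx.sub hSx.left_mem a1
      have f1 := hSy.dist b1 a2
      rw [abs_of_nonpos (sub_nonpos.2 hle)] at f1
      have f2 : m2 ∈ Sx := e2 (H.subset_of c1 e1 (c3 m2 b1 (by rw [f1]; abel)))
      have g1 := hSx.btw f2
      have g2 := hSy.btw b1
      have g3 := hSz.btw b2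
      have g4 := H.triangle x m2 z
      have g5 := H.symm x m2
      have g6 := H.symm y m2
      grind
  · intro x y z
    obtain ⟨Sy, hSy⟩ := H.joined x y
    obtain ⟨Sz, hSz⟩ := H.joined x z
    obtain ⟨m, ⟨a1, a2⟩, a3⟩ := H.median hSy hSz
    exact ⟨m, hSy.btw a1, hSz.btw a2, a3⟩

end tree

theorem IsSegment.smul {d : T → T → Lam} {G : Type w} [Group G] [MulAction G T]
    (iso : ∀ (g : G) (x y : T), d (g • x) (g • y) = d x y) (g : G) {x y : T} {S : Set T}
    (h : IsSegment d x y S) : IsSegment d (g • x) (g • y) ((fun t => g • t) '' S) := by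
  obtain ⟨a, b, α, hab, hα, rfl, rfl, rfl⟩ := h
  refine ⟨a, b, fun t => g • α t, hab, ?_, rfl, rfl, ?_⟩
  · intro s hs t ht
    rw [iso, hα s hs t ht]
  · rw [Set.image_image]

theorem ActsFreely.free {d : T → T → Lam} (H : IsLambdaTree d) {G : Type w} [Group G]
    [MulAction G T] (h : ActsFreely d G) :
    ∀ g : G, g ≠ 1 → ∀ x y : T, ¬ (g • x = y ∧ g • y = x) := by
  rintro g hg x y ⟨h1, h2⟩
  obtain ⟨S, hS⟩ := H.joined x y
  have h3 := hS.smul h.isometry g
  rw [h1, h2] at h3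
  exact h.no_inversion g hg x y S hS
    ⟨Set.Subset.antisymm (H.subset_of h3.rev hS) (H.subset_of hS h3.rev), h1, h2⟩

/-- **Theorem.** A group which acts freely on a `Λ`-tree and in which every element is a square is
abelian. -/
theorem abelian_of_actsFreely {d : T → T → Lam} (H : IsLambdaTree d) {G : Type w} [Group G]
    [MulAction G T] (h : ActsFreely d G) (sq : ∀ g : G, ∃ x : G, x * x = g) (a b : G) :
    a * b = b * a := by
  obtain ⟨o⟩ := H.nonempty
  exact comm_of_squares H.hyp h.isometry (h.free H) o sq a b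

end Pool.Agent.V8H66.LT
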